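import Pool.Agent.K3h30.RS.Stm

/-!
# The Galois group acts transitively on the primes over a prime
-/

set_option autoImplicit false

open NumberField IsDedekindDomain
open scoped Pointwise

noncomputable section

namespace Pool.Agent.K3h25.RS

open Pool.Agent.K3h30.RS

/-- the adic valuation and a ring automorphism, on the ring -/
theorem intVal_aut {R : Type} [CommRing R] [IsDedekindDomain R] (e : R ≃+* R)
    (w w' : HeightOneSpectrum R) (h : ∀ x, x ∈ w'.asIdeal ↔ e x ∈ w.asIdeal) (r : R) :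
    w'.intValuation r = w.intValuation (e r) := by
  have h1 : w'.asIdeal = w.asIdeal.map (e.symm : R →+* R) := by
    ext x
    have h2 : w.asIdeal.map (e.symm : R →+* R) = w.asIdeal.comap (e : R →+* R) :=
      Ideal.map_symm e
    rw [h, h2, Ideal.mem_comap]
    rfl
  have hp : ∀ (n : ℕ) (x : R), x ∈ w'.asIdeal ^ n ↔ e x ∈ w.asIdeal ^ n := by
    intro n x
    have h2 : (w.asIdeal ^ n).map (e.symm : R →+* R) = (w.asIdeal ^ n).comap (e : R →+* R) :=
      Ideal.map_symm e
    rw [h1, ← Ideal.map_pow, h2, Ideal.mem_comap]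
    rfl
  by_cases hr : r = 0
  · subst hr
    rw [map_zero, map_zero, map_zero]
  · have her : e r ≠ 0 := by
      intro h0
      exact hr ((map_eq_zero_iff e e.injective).mp h0)
    apply le_antisymm
    · have h3 := w.intValuation_if_neg her
      rw [h3, w'.intValuation_le_pow_iff_mem, hp, ← w.intValuation_le_pow_iff_mem, h3]
    · have h3 := w'.intValuation_if_neg hr
      rw [h3, w.intValuation_le_pow_iff_mem, ← hp, ← w'.intValuation_le_pow_iff_mem, h3]

section

variable {F H G : Type} [Field F] [NumberField F] [Field H] [NumberField H] [Algebra F H]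
  [CommGroup G] [Finite G] [MulSemiringAction G H] [IsGaloisGroup G F H]

/-- the adic valuation and the Galois group -/
theorem val_aut {H G : Type} [Field H] [NumberField H] [CommGroup G] [MulSemiringAction G H]
    (w w' : HeightOneSpectrum (𝓞 H)) (γ : G)
    (h : ∀ x : 𝓞 H, x ∈ w'.asIdeal ↔ γ • x ∈ w.asIdeal) (x : H) :
    w'.valuation H x = w.valuation H (γ • x) := by
  have hint : ∀ a : 𝓞 H, w'.intValuation a = w.intValuation (γ • a) := fun a =>
    intVal_aut (MulSemiringAction.toRingEquiv G (𝓞 H) γ) w w' h a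
  obtain ⟨a, b, _, hab⟩ := IsFractionRing.div_surjective (A := 𝓞 H) x
  have h1 : γ • x = algebraMap (𝓞 H) H (γ • a) / algebraMap (𝓞 H) H (γ • b) := by
    rw [← hab, smul_div₀']
    rfl
  rw [h1, ← hab, map_div₀, map_div₀, HeightOneSpectrum.valuation_of_algebraMap,
    HeightOneSpectrum.valuation_of_algebraMap, HeightOneSpectrum.valuation_of_algebraMap,
    HeightOneSpectrum.valuation_of_algebraMap, hint, hint]

end

theorem t_TRANS : S_TRANS := by
  intro F H G _ _ _ _ _ _ _ _ _ v w hw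
  obtain ⟨v', hv', hvw⟩ := hw
  rw [Set.mem_singleton_iff] at hv'
  subst hv'
  have hs : SMulCommClass G (𝓞 F) (𝓞 H) :=
    (inferInstance : IsGaloisGroup G (𝓞 F) (𝓞 H)).commutes
  have hinv : Algebra.IsInvariant (𝓞 F) (𝓞 H) G :=
    (inferInstance : IsGaloisGroup G (𝓞 F) (𝓞 H)).isInvariant
  constructor
  · intro γ
    have hne : γ⁻¹ • w.asIdeal ≠ ⊥ := by
      intro h0
      apply w.ne_bot
      rw [eq_bot_iff]
      intro x hx
      have h1 : γ⁻¹ • x ∈ γ⁻¹ • w.asIdeal := Ideal.smul_mem_pointwise_smul_iff.mpr hx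
      rw [h0, Ideal.mem_bot] at h1
      rw [Ideal.mem_bot]
      have h2 := congrArg (fun y => γ • y) h1
      simpa using h2
    refine ⟨⟨γ⁻¹ • w.asIdeal, w.isPrime.smul γ⁻¹, hne⟩, ?_, ?_⟩
    · refine ⟨v', rfl, ?_⟩
      rw [← hvw]
      exact Ideal.under_smul (𝓞 F) w.asIdeal γ⁻¹
    · intro x
      refine val_aut w _ γ ?_ x
      intro y
      change y ∈ γ⁻¹ • w.asIdeal ↔ _
      rw [Ideal.mem_inv_pointwise_smul_iff]
  · intro w' hw'
    obtain ⟨v'', hv'', hvw'⟩ := hw'
    rw [Set.mem_singleton_iff] at hv''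
    subst hv''
    haveI := w.isPrime
    haveI := w'.isPrime
    obtain ⟨g, hg⟩ := Algebra.IsInvariant.exists_smul_of_under_eq (𝓞 F) (𝓞 H) G w.asIdeal
      w'.asIdeal (hvw.trans hvw'.symm)
    refine ⟨g⁻¹, fun x => ?_⟩
    refine val_aut w w' g⁻¹ ?_ x
    intro y
    rw [hg, Ideal.mem_pointwise_smul_iff_inv_smul_mem]

theorem t_OVER : S_OVER := by
  intro F H _ _ _ _ _ v
  constructor
  · haveI := v.isMaximal
    obtain ⟨Q, hQ, hQv⟩ := Ideal.exists_ideal_over_maximal_of_isIntegral (S := 𝓞 H) v.asIdeal (by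
      have h1 : RingHom.ker (algebraMap (𝓞 F) (𝓞 H)) = ⊥ :=
        (RingHom.injective_iff_ker_eq_bot _).mp (FaithfulSMul.algebraMap_injective (𝓞 F) (𝓞 H))
      rw [h1]
      exact bot_le)
    refine ⟨⟨Q, hQ.isPrime, ?_⟩, v, rfl, hQv⟩
    intro h0
    rw [h0] at hQv
    apply v.ne_bot
    rw [← hQv]
    exact (RingHom.injective_iff_ker_eq_bot _).mp (FaithfulSMul.algebraMap_injective (𝓞 F) (𝓞 H))
  · haveI := v.isMaximal
    have h1 : (Ideal.primesOver v.asIdeal (𝓞 H)).Finite := IsDedekindDomain.primesOver_finite _ _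
    refine Set.Finite.of_finite_image (f := fun w : HeightOneSpectrum (𝓞 H) => w.asIdeal)
      (h1.subset ?_) ?_
    · rintro _ ⟨w, ⟨v', hv', hvw⟩, rfl⟩
      rw [Set.mem_singleton_iff] at hv'
      subst hv'
      exact ⟨w.isPrime, ⟨hvw.symm⟩⟩
    · intro w _ w' _ h
      exact HeightOneSpectrum.ext h

end Pool.Agent.K3h25.RS
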